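import Pool.Agent.Run7.h94.Strong

/-!
# Every `C_1` field is strongly `C_1`: all Fano (weighted) complete intersections have points

Let `K` be a `C_1` field.  Polynomials `f_1, …, f_r` over `K` which are weighted homogeneous of
arbitrary degrees `d_1, …, d_r ≥ 1`, for positive weights `w_1, …, w_n`, have a common nontrivial
zero over `K` as soon as `∑ d_j < ∑ w_v`.  No normic forms are assumed, and nothing is assumed
about the degrees.
-/

set_option autoImplicit false

namespace Pool.Agent.Results.MP_f689ce_ag.StronglyC1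

/-- Let `K` be a `C_1` field, `w_1, …, w_n ≥ 1` and `d_1, …, d_r ≥ 1` integers, and `f_1, …, f_r`
polynomials in `n` variables over `K`, where `f_j` is weighted homogeneous of degree `d_j` for the
weights `w_1, …, w_n`.  If `∑ d_j < ∑ w_v`, then `f_1, …, f_r` have a common nontrivial zero in
`K ^ n`. -/
theorem result (K : Type*) [Field K]
    (hK : ∀ (n d : ℕ) (f : MvPolynomial (Fin n) K), 0 < d → f.IsHomogeneous d → d < n →
      ∃ x : Fin n → K, x ≠ 0 ∧ MvPolynomial.eval x f = 0)
    (n r : ℕ) (w : Fin n → ℕ) (hw : ∀ v, 0 < w v) (d : Fin r → ℕ) (hd : ∀ j, 0 < d j)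
    (f : Fin r → MvPolynomial (Fin n) K)
    (hf : ∀ j, MvPolynomial.IsWeightedHomogeneous w (f j) (d j))
    (hn : ∑ j, d j < ∑ v, w v) :
    ∃ x : Fin n → K, x ≠ 0 ∧ ∀ j, MvPolynomial.eval x (f j) = 0 :=
  Run7.h94.strong_one (K := K)
    (fun n d f hd hf hn => hK n d f hd hf (by rwa [pow_one] at hn)) f w d hw hd hf hn

end Pool.Agent.Results.MP_f689ce_ag.StronglyC1
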