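import Pool.Agent.Run7.h94.Tor4

/-!
# Complete intersections of proportional classes in toric varieties over every `C_1` field

Let `K` be a `C_1` field and `T` a projective toric variety over `K` with homogeneous coordinate
ring `K[x_1, …, x_N]`, graded by the divisor class group modulo torsion `ℤ ^ ρ`; the variable `x_i`
has degree `w_i`, the anticanonical class is `∑ w_i`, and `T` consists of the points `x` for which
an ample class `H` lies in the cone of the `w_i` with `x_i ≠ 0`.  If `D ≠ 0` is a class and
`m_1, …, m_r` are positive integers such that `-(K_T + Δ) - (∑ m_j) D` is nef and big for some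
torus-invariant boundary `Δ` with coefficients in `[0, 1)`, then hypersurfaces of classes
`m_1 D, …, m_r D` in `T` have a common `K`-point.  No normic forms are assumed.
-/

set_option autoImplicit false

namespace Pool.Agent.Results.MP_f689ce_ag.ToricHypersurfaces

/-- Some positive integral multiple of `E` is a combination with nonnegative integral coefficients
of the vectors `w_i`, `i ∈ S`: the class `E` lies in the cone spanned by the `w_i`, `i ∈ S`. -/
def InCone {N ρ : ℕ} (w : Fin N → Fin ρ → ℤ) (S : Set (Fin N)) (E : Fin ρ → ℤ) : Prop :=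
  ∃ m : ℕ, 0 < m ∧ ∃ a : Fin N → ℕ, (∀ i, i ∉ S → a i = 0) ∧ ∑ i, a i • w i = m • E

/-- Some positive integral multiple of `E` is a combination with positive integral coefficients of
all the vectors `w_i`: the class `E` lies in the relative interior of the cone of all `w_i`. -/
def Big {N ρ : ℕ} (w : Fin N → Fin ρ → ℤ) (E : Fin ρ → ℤ) : Prop :=
  ∃ m : ℕ, 0 < m ∧ ∃ a : Fin N → ℕ, (∀ i, 0 < a i) ∧ ∑ i, a i • w i = m • E

/-- Let `K` be a `C_1` field, `w_1, …, w_N`, `D ≠ 0` and `H` vectors in `ℤ ^ ρ`, `m_1, …, m_r`
positive integers, and `F_1, …, F_r` polynomials in `N` variables over `K`, `F_j` being homogeneous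
of degree `m_j D` for the grading with `deg x_i = w_i`.  Let `0 < c_i ≤ M` be integers and
`C = ∑ c_i w_i - M (∑ m_j) D`.  Suppose that `C` and `H` lie in the interior of the cone of the
`w_i`, and that each cone spanned by some of the `w_i` which contains `H` also contains `C`.  Then
`F_1, …, F_r` have a common zero `x ∈ K ^ N` such that `H` lies in the cone spanned by the `w_i`
with `x_i ≠ 0`. -/
theorem result (K : Type*) [Field K]
    (hK : ∀ (n d : ℕ) (f : MvPolynomial (Fin n) K), 0 < d → f.IsHomogeneous d → d < n →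
      ∃ x : Fin n → K, x ≠ 0 ∧ MvPolynomial.eval x f = 0)
    (N ρ r : ℕ) (w : Fin N → Fin ρ → ℤ) (D H C : Fin ρ → ℤ) (hD : D ≠ 0)
    (m : Fin r → ℕ) (hm : ∀ j, 0 < m j)
    (F : Fin r → MvPolynomial (Fin N) K)
    (hF : ∀ j, ∀ a ∈ (F j).support, ∑ i, a i • w i = m j • D)
    (M : ℕ) (c : Fin N → ℕ) (hc : ∀ i, 0 < c i ∧ c i ≤ M)
    (hC : C = ∑ i, c i • w i - (M * ∑ j, m j) • D)
    (hCbig : Big w C) (hHbig : Big w H)
    (hnef : ∀ S : Set (Fin N), InCone w S H → InCone w S C) :
    ∃ x : Fin N → K, (∀ j, MvPolynomial.eval x (F j) = 0) ∧ InCone w {i | x i ≠ 0} H :=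
  Run7.h94.Tor.toric2 (fun n d f hd hf hn => hK n d f hd hf (by rwa [pow_one] at hn))
    w D H C hD m hm M c hc hC F hF hCbig hHbig hnef

end Pool.Agent.Results.MP_f689ce_ag.ToricHypersurfaces
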